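import Mathlib

set_option autoImplicit false

namespace Pool.Agent.H56.WC

open Finset

/-- Number of integers `j < M` with `j` between two reals. -/
theorem card_between (M : ℕ) (x y : ℝ) (hxy : x ≤ y) :
    (((range M).filter (fun j : ℕ => x ≤ (j : ℝ) ∧ (j : ℝ) < y)).card : ℝ) ≤ y - x + 1 := by
  classical
  by_cases hy : y ≤ 0
  · have : (range M).filter (fun j : ℕ => x ≤ (j : ℝ) ∧ (j : ℝ) < y) = ∅ := by
      apply Finset.filter_eq_empty_iff.mpr
      intro j _ h
      have : (0 : ℝ) ≤ j := Nat.cast_nonneg j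
      linarith [h.2]
    rw [this]
    simp
    linarith
  push_neg at hy
  have hsub : (range M).filter (fun j : ℕ => x ≤ (j : ℝ) ∧ (j : ℝ) < y) ⊆
      Finset.Ico ⌈x⌉₊ ⌈y⌉₊ := by
    intro j hj
    rw [Finset.mem_filter] at hj
    rw [Finset.mem_Ico]
    exact ⟨Nat.ceil_le.mpr hj.2.1, Nat.lt_ceil.mpr hj.2.2⟩
  have h1 := Finset.card_le_card hsub
  rw [Nat.card_Ico] at h1
  have h2 : (((range M).filter (fun j : ℕ => x ≤ (j : ℝ) ∧ (j : ℝ) < y)).card : ℝ) ≤
      ((⌈y⌉₊ - ⌈x⌉₊ : ℕ) : ℝ) := by exact_mod_cast h1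
  refine h2.trans ?_
  have h3 : ((⌈y⌉₊ : ℕ) : ℝ) < y + 1 := Nat.ceil_lt_add_one hy.le
  have h4 : x ≤ ((⌈x⌉₊ : ℕ) : ℝ) := Nat.le_ceil x
  by_cases h5 : ⌈x⌉₊ ≤ ⌈y⌉₊
  · rw [Nat.cast_sub h5]
    linarith
  · push_neg at h5
    rw [Nat.sub_eq_zero_of_le h5.le]
    simp
    linarith

/-- Counting an arithmetic progression modulo one, small positive step. -/
theorem card_fract_ap (M : ℕ) (β δ ℓ : ℝ) (hδ : 0 < δ) (hℓ : 0 ≤ ℓ) (hℓ1 : ℓ ≤ 1) :
    (((range M).filter (fun j : ℕ => Int.fract (β + j * δ) < ℓ)).card : ℝ) ≤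
      M * (ℓ + δ) + 2 / δ + 2 := by
  classical
  set S := (range M).filter (fun j : ℕ => Int.fract (β + j * δ) < ℓ) with hS
  set g : ℕ → ℤ := fun j => ⌊β + j * δ⌋ with hg
  set T : Finset ℤ := Finset.Icc ⌊β⌋ ⌊β + M * δ⌋ with hT
  have hmap : ∀ j ∈ S, g j ∈ T := by
    intro j hj
    rw [hS, Finset.mem_filter, Finset.mem_range] at hj
    rw [hT, Finset.mem_Icc]
    constructor
    · apply Int.floor_le_floor
      have : (0 : ℝ) ≤ j * δ := by positivity
      linarith
    · apply Int.floor_le_floor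
      have : (j : ℝ) ≤ M := by exact_mod_cast hj.1.le
      nlinarith
  have hfib : ∀ m ∈ T, (((S.filter (fun j => g j = m)).card : ℕ) : ℝ) ≤ ℓ / δ + 1 := by
    intro m _
    have hsub : S.filter (fun j => g j = m) ⊆
        (range M).filter (fun j : ℕ => (m - β) / δ ≤ (j : ℝ) ∧ (j : ℝ) < (m + ℓ - β) / δ) := by
      intro j hj
      rw [Finset.mem_filter, hS, Finset.mem_filter] at hj
      obtain ⟨⟨hj1, hj2⟩, hj3⟩ := hj
      rw [Finset.mem_filter]
      refine ⟨hj1, ?_, ?_⟩
      · rw [div_le_iff₀ hδ]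
        have h1 : ((⌊β + j * δ⌋ : ℤ) : ℝ) ≤ β + j * δ := Int.floor_le _
        have h2 : ((⌊β + j * δ⌋ : ℤ) : ℝ) = m := by exact_mod_cast hj3
        linarith
      · rw [lt_div_iff₀ hδ]
        have h2 : ((⌊β + j * δ⌋ : ℤ) : ℝ) = m := by exact_mod_cast hj3
        have h3 : Int.fract (β + j * δ) = β + j * δ - m := by
          rw [Int.fract, h2]
        rw [h3] at hj2
        linarith
    have h1 := Finset.card_le_card hsub
    have h2 : (((S.filter (fun j => g j = m)).card : ℕ) : ℝ) ≤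
        (((range M).filter (fun j : ℕ => (m - β) / δ ≤ (j : ℝ) ∧
          (j : ℝ) < (m + ℓ - β) / δ)).card : ℝ) := by exact_mod_cast h1
    refine h2.trans ((card_between M _ _ ?_).trans ?_)
    · apply div_le_div_of_nonneg_right _ hδ.le
      linarith
    · have : (m + ℓ - β) / δ - (m - β) / δ = ℓ / δ := by
        rw [← sub_div]
        congr 1
        ring
      linarith
  have hcard : (S.card : ℝ) ≤ (T.card : ℝ) * (ℓ / δ + 1) := by
    rw [Finset.card_eq_sum_card_fiberwise hmap]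
    push_cast
    calc ∑ m ∈ T, ((((S.filter (fun j => g j = m)).card : ℕ) : ℝ))
        ≤ ∑ _m ∈ T, (ℓ / δ + 1) := Finset.sum_le_sum hfib
      _ = (T.card : ℝ) * (ℓ / δ + 1) := by rw [Finset.sum_const, nsmul_eq_mul]
  have hTc : (T.card : ℝ) ≤ M * δ + 2 := by
    rw [hT, Int.card_Icc]
    have h1 : ((⌊β + M * δ⌋ : ℤ) : ℝ) ≤ β + M * δ := Int.floor_le _
    have h2 : β < (⌊β⌋ : ℝ) + 1 := Int.lt_floor_add_one β
    have h3 : (0 : ℤ) ≤ ⌊β + M * δ⌋ + 1 - ⌊β⌋ := by
      have : ⌊β⌋ ≤ ⌊β + M * δ⌋ := by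
        apply Int.floor_le_floor
        have : (0 : ℝ) ≤ M * δ := by positivity
        linarith
      linarith
    have h4 : (((⌊β + M * δ⌋ + 1 - ⌊β⌋).toNat : ℕ) : ℝ) =
        ((⌊β + M * δ⌋ + 1 - ⌊β⌋ : ℤ) : ℝ) := by
      have := Int.toNat_of_nonneg h3
      exact_mod_cast this
    rw [h4]
    push_cast
    linarith
  have hnn : (0 : ℝ) ≤ ℓ / δ + 1 := by positivity
  calc (S.card : ℝ) ≤ (T.card : ℝ) * (ℓ / δ + 1) := hcard
    _ ≤ (M * δ + 2) * (ℓ / δ + 1) := mul_le_mul_of_nonneg_right hTc hnn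
    _ = M * (ℓ + δ) + 2 * ℓ / δ + 2 := by
        field_simp
        ring
    _ ≤ M * (ℓ + δ) + 2 / δ + 2 := by
        have : 2 * ℓ / δ ≤ 2 / δ := by
          apply div_le_div_of_nonneg_right _ hδ.le
          linarith
        linarith

/-- The same with a negative step. -/
theorem card_fract_ap_neg (M : ℕ) (β δ ℓ : ℝ) (hδ : 0 < δ) (hℓ : 0 ≤ ℓ) (hℓ1 : ℓ ≤ 1) :
    (((range M).filter (fun j : ℕ => Int.fract (β - j * δ) < ℓ)).card : ℝ) ≤
      M * (ℓ + δ) + 2 / δ + 2 := by
  classical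
  have h := card_fract_ap M (β - (M - 1) * δ) δ ℓ hδ hℓ hℓ1
  refine le_trans ?_ h
  have : ((range M).filter (fun j : ℕ => Int.fract (β - j * δ) < ℓ)).card ≤
      ((range M).filter (fun j : ℕ => Int.fract (β - (M - 1) * δ + j * δ) < ℓ)).card := by
    apply Finset.card_le_card_of_injOn (fun j => M - 1 - j)
    · intro j hj
      simp only [Finset.coe_filter, Finset.mem_range, Set.mem_setOf_eq] at hj ⊢
      refine ⟨by omega, ?_⟩
      have h1 : ((M - 1 - j : ℕ) : ℝ) = M - 1 - j := by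
        rw [Nat.cast_sub (by omega), Nat.cast_sub (by omega)]
        simp
      rw [h1]
      have h2 : β - (M - 1) * δ + (M - 1 - j : ℝ) * δ = β - j * δ := by ring
      rw [h2]
      exact hj.2
    · intro a ha b hb hab
      simp only [Finset.coe_filter, Finset.mem_range, Set.mem_setOf_eq] at ha hb
      simp only at hab
      omega
  exact_mod_cast this

/-- Uniform upper bound for the number of visits of an irrational rotation to an arc. -/
theorem card_rotation (α : ℝ) (hα : Irrational α) (ε : ℝ) (hε : 0 < ε) :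
    ∃ K : ℝ, ∀ (β ℓ : ℝ), 0 ≤ ℓ → ℓ ≤ 1 → ∀ N : ℕ,
      (((range N).filter (fun c : ℕ => Int.fract (β + c * α) < ℓ)).card : ℝ) ≤
        (ℓ + ε) * N + K := by
  classical
  obtain ⟨n, hn⟩ := exists_nat_gt (1 / ε)
  have hn0 : 0 < n := by
    have : (0 : ℝ) < n := lt_trans (by positivity) hn
    exact_mod_cast this
  obtain ⟨Q, hQ, _, hQα⟩ := Real.exists_nat_abs_mul_sub_round_le α hn0
  set r : ℤ := round (Q * α) with hr
  set δ : ℝ := |Q * α - r| with hδdef
  have hδpos : 0 < δ := by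
    rw [hδdef]
    apply abs_pos.mpr
    intro h
    have h2 : Irrational ((Q : ℝ) * α) := by
      have := hα.natCast_mul (m := Q) (by omega)
      exact this
    have h3 : (Q : ℝ) * α = ((r : ℤ) : ℝ) := by linarith
    exact h2.ne_int r h3
  have hδε : δ < ε := by
    calc δ ≤ 1 / (n + 1) := hQα
      _ < ε := by
        rw [div_lt_iff₀ (by positivity)]
        rw [div_lt_iff₀ hε] at hn
        nlinarith
  refine ⟨Q * (1 + ε) + Q * (2 / δ + 2), ?_⟩
  intro β ℓ hℓ hℓ1 N
  have hQ' : (0 : ℝ) < Q := by exact_mod_cast hQ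
  -- split into residue classes
  set S := (range N).filter (fun c : ℕ => Int.fract (β + c * α) < ℓ) with hS
  have hmap : ∀ c ∈ S, c % Q ∈ range Q := by
    intro c _
    rw [Finset.mem_range]
    exact Nat.mod_lt _ hQ
  have hfib : ∀ t ∈ range Q, (((S.filter (fun c => c % Q = t)).card : ℕ) : ℝ) ≤
      ((N / Q : ℕ) + 1 : ℝ) * (ℓ + δ) + 2 / δ + 2 := by
    intro t ht
    rw [Finset.mem_range] at ht
    have key : ∀ j : ℕ, Int.fract (β + ((Q * j + t : ℕ) : ℝ) * α) =
        Int.fract ((β + t * α) + j * (Q * α - r)) := by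
      intro j
      have : β + ((Q * j + t : ℕ) : ℝ) * α =
          ((β + t * α) + j * (Q * α - r)) + ((j * r : ℤ) : ℝ) := by
        push_cast
        ring
      rw [this, Int.fract_add_intCast]
    have hle : (S.filter (fun c => c % Q = t)).card ≤
        ((range (N / Q + 1)).filter (fun j : ℕ =>
          Int.fract ((β + t * α) + j * (Q * α - r)) < ℓ)).card := by
      apply Finset.card_le_card_of_injOn (fun c => c / Q)
      · intro c hc
        simp only [Finset.coe_filter, Set.mem_setOf_eq, hS, Finset.mem_filter,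
          Finset.mem_range] at hc ⊢
        obtain ⟨⟨hcN, hcl⟩, hct⟩ := hc
        refine ⟨?_, ?_⟩
        · have := Nat.div_le_div_right (c := Q) hcN.le
          omega
        · rw [← key]
          have : Q * (c / Q) + t = c := by
            rw [← hct]
            exact Nat.div_add_mod c Q
          rw [this]
          exact hcl
      · intro a ha b hb hab
        simp only [Finset.coe_filter, Set.mem_setOf_eq] at ha hb
        simp only at hab
        have h1 := Nat.div_add_mod a Q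
        have h2 := Nat.div_add_mod b Q
        rw [ha.2] at h1
        rw [hb.2] at h2
        rw [← h1, ← h2, hab]
    have hle' : (((S.filter (fun c => c % Q = t)).card : ℕ) : ℝ) ≤
        (((range (N / Q + 1)).filter (fun j : ℕ =>
          Int.fract ((β + t * α) + j * (Q * α - r)) < ℓ)).card : ℝ) := by
      exact_mod_cast hle
    refine hle'.trans ?_
    rcases le_or_gt 0 (Q * α - (r : ℝ)) with hs | hs
    · have hd : (Q : ℝ) * α - r = δ := by
        rw [hδdef, abs_of_nonneg hs]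
      rw [hd]
      have := card_fract_ap (N / Q + 1) (β + t * α) δ ℓ hδpos hℓ hℓ1
      push_cast at this ⊢
      exact this
    · have hd : (Q : ℝ) * α - r = -δ := by
        rw [hδdef, abs_of_neg hs]
        ring
      have := card_fract_ap_neg (N / Q + 1) (β + t * α) δ ℓ hδpos hℓ hℓ1
      have h2 : ∀ j : ℕ, (β + t * α) + j * (Q * α - r) = (β + t * α) - j * δ := by
        intro j
        rw [hd]
        ring
      simp only [h2]
      push_cast at this ⊢
      exact this
  have hcard : (S.card : ℝ) ≤ Q * (((N / Q : ℕ) + 1 : ℝ) * (ℓ + δ) + 2 / δ + 2) := by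
    rw [Finset.card_eq_sum_card_fiberwise hmap]
    push_cast
    calc ∑ t ∈ range Q, ((((S.filter (fun c => c % Q = t)).card : ℕ) : ℝ))
        ≤ ∑ _t ∈ range Q, (((N / Q : ℕ) + 1 : ℝ) * (ℓ + δ) + 2 / δ + 2) :=
          Finset.sum_le_sum hfib
      _ = _ := by rw [Finset.sum_const, nsmul_eq_mul, Finset.card_range]
  have hNQ : (Q : ℝ) * ((N / Q : ℕ) : ℝ) ≤ N := by
    have := Nat.mul_div_le N Q
    exact_mod_cast this
  have hld : 0 ≤ ℓ + δ := by positivity
  calc (S.card : ℝ) ≤ Q * (((N / Q : ℕ) + 1 : ℝ) * (ℓ + δ) + 2 / δ + 2) := hcard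
    _ = (Q * ((N / Q : ℕ) : ℝ)) * (ℓ + δ) + Q * (ℓ + δ) + Q * (2 / δ + 2) := by ring
    _ ≤ N * (ℓ + δ) + Q * (1 + ε) + Q * (2 / δ + 2) := by
        have h1 := mul_le_mul_of_nonneg_right hNQ hld
        have h2 : (Q : ℝ) * (ℓ + δ) ≤ Q * (1 + ε) := by
          apply mul_le_mul_of_nonneg_left _ hQ'.le
          linarith
        linarith
    _ ≤ (ℓ + ε) * N + (Q * (1 + ε) + Q * (2 / δ + 2)) := by
        have hN : (0 : ℝ) ≤ N := Nat.cast_nonneg N
        nlinarith

end Pool.Agent.H56.WC
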