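import Mathlib

set_option autoImplicit false

namespace Pool.Agent.H56.WC

open Finset Real

/-- `log (1 + 1/p) / log p`: the logarithmic density of the numbers whose leading part in base `p`
is `10...`. -/
noncomputable def dens (p : ℕ) : ℝ := Real.log (1 + 1 / (p : ℝ)) / Real.log p

theorem dens_nonneg (p : ℕ) : 0 ≤ dens p := by
  unfold dens
  apply div_nonneg
  · apply Real.log_nonneg
    have : (0 : ℝ) ≤ 1 / (p : ℝ) := by positivity
    linarith
  · exact Real.log_natCast_nonneg p

theorem dens_le (p : ℕ) (hp : 2 ≤ p) : dens p ≤ 1 / (p * Real.log p) := by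
  unfold dens
  have hp' : (2 : ℝ) ≤ p := by exact_mod_cast hp
  have hlog : 0 < Real.log p := Real.log_pos (by linarith)
  rw [div_le_div_iff₀ hlog (by positivity)]
  have h1 : Real.log (1 + 1 / (p : ℝ)) ≤ 1 / (p : ℝ) := by
    have := Real.log_le_sub_one_of_pos (show (0 : ℝ) < 1 + 1 / (p : ℝ) by positivity)
    linarith
  have h2 : Real.log (1 + 1 / (p : ℝ)) * (p * Real.log p) ≤ 1 / (p : ℝ) * (p * Real.log p) :=
    mul_le_mul_of_nonneg_right h1 (by positivity)
  have h3 : 1 / (p : ℝ) * (p * Real.log p) = 1 * Real.log p := by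
    field_simp
  linarith

theorem ratio_le (p a b a' b' : ℕ) (hp : 2 ≤ p) (hb : 0 < b) (hb' : 0 < b') (ha' : 0 < a')
    (h1 : (p + 1) ^ b ≤ 2 ^ a * p ^ b) (h2 : 2 ^ a' ≤ p ^ b') :
    dens p ≤ (a * b' : ℝ) / (b * a') := by
  unfold dens
  have hp' : (2 : ℝ) ≤ p := by exact_mod_cast hp
  have hlogp : 0 < Real.log p := Real.log_pos (by linarith)
  have hl2 : 0 < Real.log 2 := Real.log_pos (by norm_num)
  have hbR : (0 : ℝ) < b := by exact_mod_cast hb
  have hbR' : (0 : ℝ) < b' := by exact_mod_cast hb'
  have haR' : (0 : ℝ) < a' := by exact_mod_cast ha'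
  -- b * log (1+1/p) ≤ a * log 2
  have e1 : b * Real.log (1 + 1 / (p : ℝ)) ≤ a * Real.log 2 := by
    have h3 : (1 + 1 / (p : ℝ)) ^ b ≤ 2 ^ a := by
      have h4 : (1 + 1 / (p : ℝ)) = (p + 1) / p := by
        field_simp
      rw [h4, div_pow, div_le_iff₀ (by positivity)]
      exact_mod_cast h1
    have h5 := Real.log_le_log (by positivity) h3
    rwa [Real.log_pow, Real.log_pow] at h5
  have e2 : a' * Real.log 2 ≤ b' * Real.log p := by
    have h3 : (2 : ℝ) ^ a' ≤ (p : ℝ) ^ b' := by exact_mod_cast h2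
    have h5 := Real.log_le_log (by positivity) h3
    rwa [Real.log_pow, Real.log_pow] at h5
  rw [div_le_div_iff₀ hlogp (by positivity)]
  -- log(1+1/p) * (b*a') ≤ a*b' * log p
  calc Real.log (1 + 1 / (p : ℝ)) * (b * a') = (b * Real.log (1 + 1 / (p : ℝ))) * a' := by ring
    _ ≤ (a * Real.log 2) * a' := mul_le_mul_of_nonneg_right e1 haR'.le
    _ = a * (a' * Real.log 2) := by ring
    _ ≤ a * (b' * Real.log p) := mul_le_mul_of_nonneg_left e2 (Nat.cast_nonneg a)
    _ = a * b' * Real.log p := by ring

theorem sum_small : ∑ p ∈ (Finset.Icc 3 100).filter Nat.Prime, dens p ≤ 641 / 1000 := by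
  have hset : (Finset.Icc 3 100).filter Nat.Prime =
      {3, 5, 7, 11, 13, 17, 19, 23, 29, 31, 37, 41, 43, 47, 53, 59, 61, 67, 71, 73, 79, 83, 89, 97} := by
    decide +kernel
  rw [hset]
  have h3 := ratio_le 3 22 53 19 12 (by norm_num) (by norm_num) (by norm_num) (by norm_num)
    (by norm_num) (by norm_num)
  have h5 := ratio_le 5 5 19 44 19 (by norm_num) (by norm_num) (by norm_num) (by norm_num)
    (by norm_num) (by norm_num)
  have h7 := ratio_le 7 11 57 14 5 (by norm_num) (by norm_num) (by norm_num) (by norm_num)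
    (by norm_num) (by norm_num)
  have h11 := ratio_le 11 10 79 38 11 (by norm_num) (by norm_num) (by norm_num) (by norm_num)
    (by norm_num) (by norm_num)
  have h13 := ratio_le 13 3 28 37 10 (by norm_num) (by norm_num) (by norm_num) (by norm_num)
    (by norm_num) (by norm_num)
  have h17 := ratio_le 17 1 12 49 12 (by norm_num) (by norm_num) (by norm_num) (by norm_num)
    (by norm_num) (by norm_num)
  have h19 := ratio_le 19 2 27 72 17 (by norm_num) (by norm_num) (by norm_num) (by norm_num)
    (by norm_num) (by norm_num)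
  have h23 := ratio_le 23 4 65 9 2 (by norm_num) (by norm_num) (by norm_num) (by norm_num)
    (by norm_num) (by norm_num)
  have h29 := ratio_le 29 3 61 34 7 (by norm_num) (by norm_num) (by norm_num) (by norm_num)
    (by norm_num) (by norm_num)
  have h31 := ratio_le 31 3 65 94 19 (by norm_num) (by norm_num) (by norm_num) (by norm_num)
    (by norm_num) (by norm_num)
  have h37 := ratio_le 37 3 77 26 5 (by norm_num) (by norm_num) (by norm_num) (by norm_num)
    (by norm_num) (by norm_num)
  have h41 := ratio_le 41 2 57 75 14 (by norm_num) (by norm_num) (by norm_num) (by norm_num)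
    (by norm_num) (by norm_num)
  have h43 := ratio_le 43 1 30 103 19 (by norm_num) (by norm_num) (by norm_num) (by norm_num)
    (by norm_num) (by norm_num)
  have h47 := ratio_le 47 2 65 61 11 (by norm_num) (by norm_num) (by norm_num) (by norm_num)
    (by norm_num) (by norm_num)
  have h53 := ratio_le 53 1 37 63 11 (by norm_num) (by norm_num) (by norm_num) (by norm_num)
    (by norm_num) (by norm_num)
  have h59 := ratio_le 59 1 41 100 17 (by norm_num) (by norm_num) (by norm_num) (by norm_num)
    (by norm_num) (by norm_num)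
  have h61 := ratio_le 61 1 42 83 14 (by norm_num) (by norm_num) (by norm_num) (by norm_num)
    (by norm_num) (by norm_num)
  have h67 := ratio_le 67 1 46 97 16 (by norm_num) (by norm_num) (by norm_num) (by norm_num)
    (by norm_num) (by norm_num)
  have h71 := ratio_le 71 1 49 43 7 (by norm_num) (by norm_num) (by norm_num) (by norm_num)
    (by norm_num) (by norm_num)
  have h73 := ratio_le 73 1 50 99 16 (by norm_num) (by norm_num) (by norm_num) (by norm_num)
    (by norm_num) (by norm_num)
  have h79 := ratio_le 79 1 55 63 10 (by norm_num) (by norm_num) (by norm_num) (by norm_num)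
    (by norm_num) (by norm_num)
  have h83 := ratio_le 83 1 57 51 8 (by norm_num) (by norm_num) (by norm_num) (by norm_num)
    (by norm_num) (by norm_num)
  have h89 := ratio_le 89 1 62 123 19 (by norm_num) (by norm_num) (by norm_num) (by norm_num)
    (by norm_num) (by norm_num)
  have h97 := ratio_le 97 1 67 112 17 (by norm_num) (by norm_num) (by norm_num) (by norm_num)
    (by norm_num) (by norm_num)
  rw [Finset.sum_insert (by decide), Finset.sum_insert (by decide), Finset.sum_insert (by decide),
    Finset.sum_insert (by decide), Finset.sum_insert (by decide), Finset.sum_insert (by decide),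
    Finset.sum_insert (by decide), Finset.sum_insert (by decide), Finset.sum_insert (by decide),
    Finset.sum_insert (by decide), Finset.sum_insert (by decide), Finset.sum_insert (by decide),
    Finset.sum_insert (by decide), Finset.sum_insert (by decide), Finset.sum_insert (by decide),
    Finset.sum_insert (by decide), Finset.sum_insert (by decide), Finset.sum_insert (by decide),
    Finset.sum_insert (by decide), Finset.sum_insert (by decide), Finset.sum_insert (by decide),
    Finset.sum_insert (by decide), Finset.sum_insert (by decide), Finset.sum_singleton]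
  norm_num at h3 h5 h7 h11 h13 h17 h19 h23 h29 h31 h37 h41 h43 h47 h53 h59 h61 h67 h71 h73 h79 h83 h89 h97
  linarith

/-- The function `1/(n log^2 n)`. -/
noncomputable def gfun (n : ℕ) : ℝ := 1 / (n * Real.log n ^ 2)

theorem gfun_anti (n : ℕ) (hn : 2 ≤ n) : gfun (n + 1) ≤ gfun n := by
  unfold gfun
  have hn' : (2 : ℝ) ≤ n := by exact_mod_cast hn
  have hlog : 0 < Real.log n := Real.log_pos (by linarith)
  have hl : Real.log n ≤ Real.log ((n + 1 : ℕ) : ℝ) := by
    apply Real.log_le_log (by linarith)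
    push_cast
    linarith
  apply one_div_le_one_div_of_le (by positivity)
  apply mul_le_mul
  · push_cast
    linarith
  · exact pow_le_pow_left₀ hlog.le hl 2
  · positivity
  · positivity

theorem gfun_le (n : ℕ) (hn : 2 ≤ n) :
    gfun (n + 1) ≤ 1 / Real.log n - 1 / Real.log ((n + 1 : ℕ) : ℝ) := by
  unfold gfun
  have hn' : (2 : ℝ) ≤ n := by exact_mod_cast hn
  have hlog : 0 < Real.log n := Real.log_pos (by linarith)
  have hl : Real.log n ≤ Real.log ((n + 1 : ℕ) : ℝ) := by
    apply Real.log_le_log (by linarith)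
    push_cast
    linarith
  have hlog1 : 0 < Real.log ((n + 1 : ℕ) : ℝ) := lt_of_lt_of_le hlog hl
  have hdiff : 1 / ((n + 1 : ℕ) : ℝ) ≤ Real.log ((n + 1 : ℕ) : ℝ) - Real.log n := by
    have h1 : Real.log ((n + 1 : ℕ) : ℝ) - Real.log n = - Real.log ((n : ℝ) / (n + 1)) := by
      rw [Real.log_div (by positivity) (by positivity)]
      push_cast
      ring
    rw [h1]
    have h2 := Real.log_le_sub_one_of_pos (show (0 : ℝ) < (n : ℝ) / (n + 1) by positivity)
    have h3 : (n : ℝ) / (n + 1) - 1 = - (1 / ((n + 1 : ℕ) : ℝ)) := by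
      push_cast
      field_simp
      ring
    rw [h3] at h2
    linarith
  rw [div_sub_div _ _ hlog.ne' hlog1.ne', one_mul, mul_one,
    div_le_div_iff₀ (by positivity) (by positivity), one_mul]
  -- log n * log (n+1) ≤ (log (n+1) - log n) * ((n+1) * log(n+1)^2)
  have h4 : 1 ≤ (Real.log ((n + 1 : ℕ) : ℝ) - Real.log n) * ((n + 1 : ℕ) : ℝ) := by
    rw [div_le_iff₀ (by positivity)] at hdiff
    exact hdiff
  calc Real.log n * Real.log ((n + 1 : ℕ) : ℝ)
      ≤ Real.log ((n + 1 : ℕ) : ℝ) * Real.log ((n + 1 : ℕ) : ℝ) :=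
        mul_le_mul_of_nonneg_right hl hlog1.le
    _ = 1 * Real.log ((n + 1 : ℕ) : ℝ) ^ 2 := by ring
    _ ≤ ((Real.log ((n + 1 : ℕ) : ℝ) - Real.log n) * ((n + 1 : ℕ) : ℝ)) *
        Real.log ((n + 1 : ℕ) : ℝ) ^ 2 := mul_le_mul_of_nonneg_right h4 (by positivity)
    _ = (Real.log ((n + 1 : ℕ) : ℝ) - Real.log n) * (((n + 1 : ℕ) : ℝ) *
        Real.log ((n + 1 : ℕ) : ℝ) ^ 2) := by ring

theorem theta_succ (n : ℕ) : Chebyshev.theta ((n + 1 : ℕ) : ℝ) =
    Chebyshev.theta (n : ℝ) + if (n + 1).Prime then Real.log ((n + 1 : ℕ) : ℝ) else 0 := by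
  rw [Chebyshev.theta_eq_sum_Icc, Chebyshev.theta_eq_sum_Icc]
  simp only [Nat.floor_natCast]
  rw [Finset.sum_filter, Finset.sum_filter, Finset.sum_Icc_succ_top (by omega)]

/-- Abel summation bound for the tail of `sum 1/(p log p)`. -/
theorem tail_bound (P N : ℕ) (hP : 2 ≤ P) (hN : P ≤ N) :
    ∑ p ∈ (Finset.Ioc P N).filter Nat.Prime, 1 / ((p : ℝ) * Real.log p) +
      (Real.log 4 * N - Chebyshev.theta (N : ℝ)) * gfun N ≤
      (Real.log 4 * P - Chebyshev.theta (P : ℝ)) * gfun P +
        Real.log 4 * (1 / Real.log P - 1 / Real.log N) := by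
  induction N, hN using Nat.le_induction with
  | base => simp
  | succ N hPN ih =>
    have hN2 : 2 ≤ N := le_trans hP hPN
    rw [Finset.sum_filter] at ih ⊢
    rw [Finset.sum_Ioc_succ_top hPN, theta_succ]
    have h0 : 0 ≤ Real.log 4 * N - Chebyshev.theta (N : ℝ) := by
      have := Chebyshev.theta_le_log4_mul_x (x := (N : ℝ)) (Nat.cast_nonneg N)
      linarith
    have h1 := gfun_anti N hN2
    have h2 := gfun_le N hN2
    have h4 : 0 < Real.log 4 := Real.log_pos (by norm_num)
    have h3 : (Real.log 4 * N - Chebyshev.theta (N : ℝ)) * gfun (N + 1) ≤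
        (Real.log 4 * N - Chebyshev.theta (N : ℝ)) * gfun N :=
      mul_le_mul_of_nonneg_left h1 h0
    have h5 : Real.log 4 * gfun (N + 1) ≤
        Real.log 4 * (1 / Real.log N - 1 / Real.log ((N + 1 : ℕ) : ℝ)) :=
      mul_le_mul_of_nonneg_left h2 h4.le
    have h6 : (if (N + 1).Prime then 1 / (((N + 1 : ℕ) : ℝ) * Real.log ((N + 1 : ℕ) : ℝ)) else 0) +
        (Real.log 4 * ((N + 1 : ℕ) : ℝ) - (Chebyshev.theta (N : ℝ) +
          if (N + 1).Prime then Real.log ((N + 1 : ℕ) : ℝ) else 0)) * gfun (N + 1) =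
        (Real.log 4 * ((N + 1 : ℕ) : ℝ) - Chebyshev.theta (N : ℝ)) * gfun (N + 1) := by
      split_ifs with hpr
      · have hlog1 : 0 < Real.log ((N + 1 : ℕ) : ℝ) := by
          apply Real.log_pos
          have : (2 : ℝ) ≤ N := by exact_mod_cast hN2
          push_cast
          linarith
        have : gfun (N + 1) * Real.log ((N + 1 : ℕ) : ℝ) =
            1 / (((N + 1 : ℕ) : ℝ) * Real.log ((N + 1 : ℕ) : ℝ)) := by
          unfold gfun
          field_simp
        linarith
      · ring
    push_cast at h6 ih h5 h3 ⊢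
    linarith

theorem log_hundred_ge : (93 / 14 : ℝ) * Real.log 2 ≤ Real.log 100 := by
  have h3 : (2 : ℝ) ^ 93 ≤ (100 : ℝ) ^ 14 := by norm_num
  have h5 := Real.log_le_log (by positivity) h3
  rw [Real.log_pow, Real.log_pow] at h5
  push_cast at h5
  linarith

theorem log_four : Real.log 4 = 2 * Real.log 2 := by
  have : (4 : ℝ) = 2 ^ 2 := by norm_num
  rw [this, Real.log_pow]
  norm_num

set_option maxRecDepth 20000 in
theorem primorial_hundred : (1329227995784915872903807060280344576 : ℕ) ≤ primorial 100 := by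
  decide +kernel

theorem theta_hundred : 120 * Real.log 2 ≤ Chebyshev.theta (100 : ℝ) := by
  rw [Chebyshev.theta_eq_log_primorial]
  have h1 : ⌊(100 : ℝ)⌋₊ = 100 := by
    have : (100 : ℝ) = ((100 : ℕ) : ℝ) := by norm_num
    rw [this, Nat.floor_natCast]
  rw [h1]
  have h2 : (2 : ℕ) ^ 120 ≤ primorial 100 := by
    have h3 : (2 : ℕ) ^ 120 = 1329227995784915872903807060280344576 := by norm_num
    rw [h3]
    exact primorial_hundred
  have h3 : (2 : ℝ) ^ 120 ≤ ((primorial 100 : ℕ) : ℝ) := by exact_mod_cast h2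
  have h5 := Real.log_le_log (by positivity) h3
  rw [Real.log_pow] at h5
  push_cast at h5
  exact h5

theorem sum_dens_le (N : ℕ) : ∑ p ∈ (Finset.Icc 3 N).filter Nat.Prime, dens p ≤ 97 / 100 := by
  rcases le_or_gt N 100 with hN | hN
  · have hsub : (Finset.Icc 3 N).filter Nat.Prime ⊆ (Finset.Icc 3 100).filter Nat.Prime := by
      apply Finset.filter_subset_filter
      exact Finset.Icc_subset_Icc_right hN
    have h1 := Finset.sum_le_sum_of_subset_of_nonneg hsub (fun i _ _ => dens_nonneg i)
    have h2 := sum_small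
    linarith
  · have hsplit : (Finset.Icc 3 N).filter Nat.Prime =
        (Finset.Icc 3 100).filter Nat.Prime ∪ (Finset.Ioc 100 N).filter Nat.Prime := by
      ext x
      simp only [Finset.mem_Icc, Finset.mem_union, Finset.mem_Ioc, Finset.mem_filter]
      constructor
      · rintro ⟨hx, hpr⟩
        by_cases hx1 : x ≤ 100
        · exact Or.inl ⟨⟨hx.1, hx1⟩, hpr⟩
        · exact Or.inr ⟨⟨by omega, hx.2⟩, hpr⟩
      · rintro (⟨hx, hpr⟩ | ⟨hx, hpr⟩)
        · exact ⟨⟨hx.1, by omega⟩, hpr⟩
        · exact ⟨⟨by omega, hx.2⟩, hpr⟩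
    have hdisj : Disjoint ((Finset.Icc 3 100).filter Nat.Prime)
        ((Finset.Ioc 100 N).filter Nat.Prime) := by
      rw [Finset.disjoint_left]
      intro x hx hx'
      simp only [Finset.mem_filter, Finset.mem_Icc, Finset.mem_Ioc] at hx hx'
      omega
    rw [hsplit, Finset.sum_union hdisj]
    have h1 : ∑ p ∈ (Finset.Ioc 100 N).filter Nat.Prime, dens p ≤
        ∑ p ∈ (Finset.Ioc 100 N).filter Nat.Prime, 1 / ((p : ℝ) * Real.log p) := by
      apply Finset.sum_le_sum
      intro p hp
      rw [Finset.mem_filter, Finset.mem_Ioc] at hp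
      exact dens_le p (by omega)
    have h2 := tail_bound 100 N (by norm_num) hN.le
    have h3 : 0 ≤ (Real.log 4 * N - Chebyshev.theta (N : ℝ)) * gfun N := by
      apply mul_nonneg
      · have := Chebyshev.theta_le_log4_mul_x (x := (N : ℝ)) (Nat.cast_nonneg N)
        linarith
      · unfold gfun
        positivity
    have hN' : (100 : ℝ) < N := by exact_mod_cast hN
    have h4 : 0 ≤ Real.log 4 * (1 / Real.log N) := by
      have : 0 < Real.log N := Real.log_pos (by linarith)
      have : 0 < Real.log 4 := Real.log_pos (by norm_num)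
      positivity
    have h5 := theta_hundred
    have h6 := log_hundred_ge
    have h7 := log_four
    have hl2 : 0.6931471803 < Real.log 2 := Real.log_two_gt_d9
    have hl2' : Real.log 2 < 0.6931471808 := Real.log_two_lt_d9
    -- main term
    have h8 : Real.log 4 * (1 / Real.log ((100 : ℕ) : ℝ)) ≤ 28 / 93 := by
      push_cast
      rw [h7, mul_one_div, div_le_div_iff₀ (by linarith) (by norm_num)]
      linarith
    have h9 : (Real.log 4 * ((100 : ℕ) : ℝ) - Chebyshev.theta ((100 : ℕ) : ℝ)) * gfun 100 ≤ 27 / 1000 := by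
      unfold gfun
      push_cast
      have h10 : Real.log 4 * 100 - Chebyshev.theta (100 : ℝ) ≤ 80 * Real.log 2 := by
        rw [h7]
        linarith
      have h11 : 0 < Real.log 100 := by linarith
      rw [mul_one_div, div_le_iff₀ (by positivity)]
      have h12 : (4.6 : ℝ) ≤ Real.log 100 := by linarith
      nlinarith
    have h10 := sum_small
    have h11 : Real.log 4 * (1 / Real.log ((100 : ℕ) : ℝ) - 1 / Real.log N) =
        Real.log 4 * (1 / Real.log ((100 : ℕ) : ℝ)) - Real.log 4 * (1 / Real.log N) := by ring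
    rw [h11] at h2
    linarith

theorem tail_small (η : ℝ) (hη : 0 < η) : ∃ P : ℕ, 13 ≤ P ∧ ∀ N : ℕ,
    ∑ p ∈ (Finset.Ioc P N).filter Nat.Prime, 1 / ((p : ℝ) * Real.log p) ≤ η := by
  have hl4 : 0 < Real.log 4 := Real.log_pos (by norm_num)
  obtain ⟨P, hP⟩ := exists_nat_gt (Real.exp (2 * Real.log 4 / η + 1))
  have hP1 : (1 : ℝ) < Real.exp (2 * Real.log 4 / η + 1) := by
    apply Real.one_lt_exp_iff.mpr
    positivity
  refine ⟨P + 13, by omega, ?_⟩
  intro N
  rcases le_or_gt N (P + 13) with hN | hN
  · have : (Finset.Ioc (P + 13) N) = ∅ := Finset.Ioc_eq_empty (by omega)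
    rw [this]
    simp
    exact hη.le
  set R := P + 13 with hR
  have hR' : Real.exp (2 * Real.log 4 / η + 1) < (R : ℝ) := by
    rw [hR]
    push_cast
    linarith
  have hRpos : (0 : ℝ) < R := lt_trans (Real.exp_pos _) hR'
  have hlogR : 2 * Real.log 4 / η + 1 < Real.log R := by
    rwa [Real.lt_log_iff_exp_lt hRpos]
  have hlogR1 : 1 < Real.log R := by
    have : 0 < 2 * Real.log 4 / η := by positivity
    linarith
  have h2 := tail_bound R N (by omega) hN.le
  have h3 : 0 ≤ (Real.log 4 * N - Chebyshev.theta (N : ℝ)) * gfun N := by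
    apply mul_nonneg
    · have := Chebyshev.theta_le_log4_mul_x (x := (N : ℝ)) (Nat.cast_nonneg N)
      linarith
    · unfold gfun
      positivity
  have h4 : 0 ≤ Real.log 4 * (1 / Real.log N) := by
    have hN' : (R : ℝ) < N := by exact_mod_cast hN
    have : 0 ≤ Real.log N := Real.log_natCast_nonneg N
    positivity
  have h5 : (Real.log 4 * R - Chebyshev.theta (R : ℝ)) * gfun R ≤ Real.log 4 * (1 / Real.log R) := by
    unfold gfun
    have hth := Chebyshev.theta_nonneg (R : ℝ)
    have h6 : (Real.log 4 * R - Chebyshev.theta (R : ℝ)) * (1 / (R * Real.log R ^ 2)) ≤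
        (Real.log 4 * R) * (1 / (R * Real.log R ^ 2)) := by
      apply mul_le_mul_of_nonneg_right _ (by positivity)
      linarith
    refine h6.trans ?_
    have h7 : (Real.log 4 * R) * (1 / (R * Real.log R ^ 2)) = Real.log 4 * (1 / Real.log R ^ 2) := by
      field_simp
    rw [h7]
    apply mul_le_mul_of_nonneg_left _ hl4.le
    apply one_div_le_one_div_of_le (by linarith)
    nlinarith
  have h6 : Real.log 4 * (1 / Real.log R) ≤ η / 2 := by
    rw [mul_one_div, div_le_iff₀ (by linarith)]
    have : 2 * Real.log 4 / η ≤ Real.log R := by linarith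
    rw [div_le_iff₀ hη] at this
    linarith
  have h7 : Real.log 4 * (1 / Real.log R - 1 / Real.log N) =
      Real.log 4 * (1 / Real.log R) - Real.log 4 * (1 / Real.log N) := by ring
  rw [h7] at h2
  linarith

end Pool.Agent.H56.WC
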