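import Mathlib
import Pool.Agent.H56.WC.Equi
import Pool.Agent.H56.WC.Primes

set_option autoImplicit false

namespace Pool.Agent.H56.WC

open Finset

/-- `log 2 / log p` is irrational for an odd prime `p`. -/
theorem irrational_log_two_div (p : ℕ) (hp : p.Prime) (hp3 : 3 ≤ p) :
    Irrational (Real.log 2 / Real.log p) := by
  have hlogp : 0 < Real.log p := Real.log_pos (by exact_mod_cast (by omega : 1 < p))
  have hl2 : 0 < Real.log 2 := Real.log_pos (by norm_num)
  rintro ⟨q, hq⟩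
  have hqpos : 0 < q := by
    have : (0 : ℝ) < (q : ℝ) := by rw [hq]; positivity
    exact_mod_cast this
  have hnum : 0 < q.num := Rat.num_pos.mpr hqpos
  obtain ⟨a, ha⟩ := Int.eq_ofNat_of_zero_le hnum.le
  have ha0 : 0 < a := by omega
  have hden : 0 < q.den := q.den_pos
  have h1 : (q : ℝ) = (a : ℝ) / (q.den : ℝ) := by
    have := Rat.cast_def (K := ℝ) q
    rw [this, ha]
    simp
  rw [h1] at hq
  have h2 : (a : ℝ) * Real.log p = q.den * Real.log 2 := by
    have hd : (0 : ℝ) < q.den := by exact_mod_cast hden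
    rw [div_eq_div_iff hd.ne' hlogp.ne'] at hq
    linarith
  have h3 : Real.log ((p : ℝ) ^ a) = Real.log ((2 : ℝ) ^ q.den) := by
    rw [Real.log_pow, Real.log_pow]
    exact h2
  have hp0 : (0 : ℝ) < p := by exact_mod_cast hp.pos
  have h4 : (p : ℝ) ^ a = (2 : ℝ) ^ q.den := by
    exact Real.log_injOn_pos (Set.mem_Ioi.mpr (by positivity)) (Set.mem_Ioi.mpr (by positivity)) h3
  have h5 : p ^ a = 2 ^ q.den := by exact_mod_cast h4
  have h6 : 2 ∣ p ^ a := by
    rw [h5]
    exact dvd_pow_self 2 (by omega)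
  have h7 := Nat.prime_two.dvd_of_dvd_pow h6
  rw [Nat.prime_dvd_prime_iff_eq Nat.prime_two hp] at h7
  omega

/-- `m` lies in (an enlargement of) an interval `[p^b, p^b + p^(b-1))`, `b ≥ 2`. -/
def Bad (M p m : ℕ) : Prop := ∃ b : ℕ, 2 ≤ b ∧ p ^ b ≤ m ∧ m < p ^ b + p ^ (b - 1) + M

/-- one bad scale gives a small fractional part. -/
theorem fract_of_bad (M p : ℕ) (hp3 : 3 ≤ p) (η : ℝ) (hηpos : 0 < η)
    (hη1 : η ≤ 1 / 2) (c₁ : ℕ) (hc₁ : (M : ℝ) * (1 + 1 / η) < c₁)
    (C n c : ℕ) (hn : 255 * 2 ^ C ≤ n) (hcl : c₁ ≤ c) (hcC : c ≤ C)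
    (hbad : Bad M p (n / 2 ^ (C - c))) :
    Int.fract (Real.log ((n : ℝ) / 2 ^ C) / Real.log p + c * (Real.log 2 / Real.log p)) <
      dens p + η / Real.log p := by
  obtain ⟨b, hb2, hb3, hb4⟩ := hbad
  have hp3' : (3 : ℝ) ≤ p := by exact_mod_cast hp3
  have hp0 : (0 : ℝ) < p := by linarith
  have hlogp1 : 1 < Real.log p := by
    rw [Real.lt_log_iff_exp_lt hp0]
    have := Real.exp_one_lt_d9
    linarith
  have hlogp : 0 < Real.log p := by linarith
  have hlog43 : Real.log (1 + 1 / (p : ℝ)) ≤ 1 / 3 := by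
    have h1 := Real.log_le_sub_one_of_pos (show (0 : ℝ) < 1 + 1 / (p : ℝ) by positivity)
    have h2 : 1 / (p : ℝ) ≤ 1 / 3 := one_div_le_one_div_of_le (by norm_num) hp3'
    linarith
  have hℓlog : (dens p + η / Real.log p) * Real.log p = Real.log (1 + 1 / (p : ℝ)) + η := by
    unfold dens
    field_simp
  have hℓ1 : dens p + η / Real.log p ≤ 1 := by
    have h1 : (dens p + η / Real.log p) * Real.log p ≤ 1 * Real.log p := by
      rw [hℓlog]
      linarith
    exact le_of_mul_le_mul_right h1 hlogp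
  generalize hℓ : dens p + η / Real.log p = ℓ at hℓlog hℓ1 ⊢
  generalize hv : (n : ℝ) / 2 ^ C = v
  have hvpos : 0 < v := by
    rw [← hv]
    have : 0 < n := lt_of_lt_of_le (by positivity) hn
    have : (0 : ℝ) < n := by exact_mod_cast this
    positivity
  have hv255 : 255 ≤ v := by
    rw [← hv, le_div_iff₀ (by positivity)]
    exact_mod_cast hn
  generalize hm : n / 2 ^ (C - c) = m at hb3 hb4
  generalize hy : v * 2 ^ c = y
  have hyn : y = (n : ℝ) / 2 ^ (C - c) := by
    rw [← hy, ← hv]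
    have : (2 : ℝ) ^ C = 2 ^ (C - c) * 2 ^ c := by
      rw [← pow_add]
      congr 1
      omega
    rw [this]
    field_simp
  have hmy : (m : ℝ) ≤ y := by
    rw [hyn, le_div_iff₀ (by positivity), ← hm]
    have := Nat.div_mul_le_self n (2 ^ (C - c))
    exact_mod_cast this
  have hym : y < m + 1 := by
    rw [hyn, div_lt_iff₀ (by positivity)]
    have h2 : n < (m + 1) * 2 ^ (C - c) := by
      have h3 := Nat.div_add_mod n (2 ^ (C - c))
      have h4 := Nat.mod_lt n (show 0 < 2 ^ (C - c) by positivity)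
      rw [hm] at h3
      nlinarith
    exact_mod_cast h2
  have hypos : 0 < y := by rw [← hy]; positivity
  have hpb : (0 : ℝ) < (p : ℝ) ^ b := by positivity
  have hlow : (p : ℝ) ^ b ≤ y := by
    refine le_trans ?_ hmy
    exact_mod_cast hb3
  have hup : y < (p : ℝ) ^ b + (p : ℝ) ^ (b - 1) + M := by
    have : m + 1 ≤ p ^ b + p ^ (b - 1) + M := hb4
    have h2 : ((m : ℝ) + 1) ≤ (p : ℝ) ^ b + (p : ℝ) ^ (b - 1) + M := by exact_mod_cast this
    linarith
  have hpb1 : (p : ℝ) ^ (b - 1) = (p : ℝ) ^ b * (1 / p) := by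
    have : (p : ℝ) ^ b = (p : ℝ) ^ (b - 1) * p := by
      rw [← pow_succ]
      congr 1
      omega
    rw [this]
    field_simp
  -- size of p^b
  have h2c : (c : ℝ) < 2 ^ c := by exact_mod_cast Nat.lt_two_pow_self
  have hcc : (c₁ : ℝ) ≤ c := by exact_mod_cast hcl
  have hMη : (M : ℝ) ≤ η * (p : ℝ) ^ b := by
    have h1 : (M : ℝ) * (1 + 1 / η) < 2 ^ c := by linarith
    have h2 : (255 : ℝ) * 2 ^ c ≤ y := by
      rw [← hy]
      exact mul_le_mul_of_nonneg_right hv255 (by positivity)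
    have h3 : (p : ℝ) ^ (b - 1) ≤ (p : ℝ) ^ b := by
      rw [hpb1]
      have h31 : 1 / (p : ℝ) ≤ 1 := by
        rw [div_le_one hp0]
        linarith
      calc (p : ℝ) ^ b * (1 / p) ≤ (p : ℝ) ^ b * 1 := mul_le_mul_of_nonneg_left h31 hpb.le
        _ = (p : ℝ) ^ b := mul_one _
    have hM0 : (0 : ℝ) ≤ M := Nat.cast_nonneg M
    have hMη0 : (0 : ℝ) ≤ M * (1 / η) := by positivity
    have h1' : (M : ℝ) + M * (1 / η) < 2 ^ c := by
      have : (M : ℝ) * (1 + 1 / η) = M + M * (1 / η) := by ring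
      linarith
    have h6 : (M : ℝ) * (1 / η) ≤ (p : ℝ) ^ b := by
      have h7 : (0 : ℝ) < 2 ^ c := by positivity
      linarith
    rw [mul_one_div, div_le_iff₀ hηpos] at h6
    linarith
  have hup2 : y < (p : ℝ) ^ b * (1 + 1 / p + η) := by
    rw [hpb1] at hup
    have : (p : ℝ) ^ b * (1 + 1 / p + η) = (p : ℝ) ^ b + (p : ℝ) ^ b * (1 / p) + η * (p : ℝ) ^ b := by
      ring
    linarith
  -- logs
  have hlogy : Real.log y = Real.log v + c * Real.log 2 := by
    rw [← hy, Real.log_mul hvpos.ne' (by positivity), Real.log_pow]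
  have hval : Real.log v / Real.log p + c * (Real.log 2 / Real.log p) =
      Real.log y / Real.log p := by
    rw [hlogy]
    ring
  rw [hval]
  have hb1 : (b : ℝ) ≤ Real.log y / Real.log p := by
    rw [le_div_iff₀ hlogp, ← Real.log_pow]
    exact Real.log_le_log hpb hlow
  have hb2' : Real.log y / Real.log p < b + ℓ := by
    rw [div_lt_iff₀ hlogp, add_mul, ← Real.log_pow, hℓlog]
    have h1 : Real.log y < Real.log ((p : ℝ) ^ b * (1 + 1 / p + η)) :=
      Real.log_lt_log hypos hup2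
    rw [Real.log_mul hpb.ne' (by positivity)] at h1
    have h2 : Real.log (1 + 1 / (p : ℝ) + η) ≤ Real.log (1 + 1 / (p : ℝ)) + η := by
      have h3 : (1 + 1 / (p : ℝ) + η) ≤ (1 + 1 / (p : ℝ)) * (1 + η) := by
        have h31 : (0 : ℝ) ≤ 1 / (p : ℝ) * η := by positivity
        have h32 : (1 + 1 / (p : ℝ)) * (1 + η) = 1 + 1 / (p : ℝ) + η + 1 / (p : ℝ) * η := by ring
        linarith
      have h4 := Real.log_le_log (by positivity) h3
      rw [Real.log_mul (by positivity) (by positivity)] at h4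
      have h5 := Real.log_le_sub_one_of_pos (show (0 : ℝ) < 1 + η by positivity)
      linarith
    linarith
  have hfl : ⌊Real.log y / Real.log p⌋ = (b : ℤ) := by
    rw [Int.floor_eq_iff]
    constructor
    · push_cast
      exact hb1
    · push_cast
      linarith
  rw [Int.fract, hfl]
  push_cast
  linarith

open scoped Classical in
/-- small primes: frequency of bad scales for a fixed leading part. -/
theorem small_prime (M p : ℕ) (hp : p.Prime) (hp3 : 3 ≤ p) (ε : ℝ) (hε : 0 < ε) :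
    ∃ (c₁ : ℕ) (K : ℝ), 0 ≤ K ∧ ∀ (C n : ℕ), 255 * 2 ^ C ≤ n → ∀ c₀ : ℕ, c₁ ≤ c₀ →
      (((Finset.Icc c₀ C).filter (fun c => Bad M p (n / 2 ^ (C - c)))).card : ℝ) ≤
        (dens p + ε) * (C + 1) + K := by
  obtain ⟨η, hηpos, hη1, hη2⟩ : ∃ η : ℝ, 0 < η ∧ η ≤ 1 / 2 ∧ η ≤ ε / 2 :=
    ⟨min (1 / 2) (ε / 2), by positivity, min_le_left _ _, min_le_right _ _⟩
  have hp3' : (3 : ℝ) ≤ p := by exact_mod_cast hp3
  have hp0 : (0 : ℝ) < p := by linarith
  have hlogp1 : 1 < Real.log p := by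
    rw [Real.lt_log_iff_exp_lt hp0]
    have := Real.exp_one_lt_d9
    linarith
  have hlogp : 0 < Real.log p := by linarith
  have hℓ0 : 0 ≤ dens p + η / Real.log p := by
    have := dens_nonneg p
    positivity
  have hℓ1 : dens p + η / Real.log p ≤ 1 := by
    have hlog43 : Real.log (1 + 1 / (p : ℝ)) ≤ 1 / 3 := by
      have h1 := Real.log_le_sub_one_of_pos (show (0 : ℝ) < 1 + 1 / (p : ℝ) by positivity)
      have h2 : 1 / (p : ℝ) ≤ 1 / 3 := one_div_le_one_div_of_le (by norm_num) hp3'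
      linarith
    unfold dens
    rw [← add_div, div_le_one hlogp]
    linarith
  obtain ⟨K, hK⟩ := card_rotation (Real.log 2 / Real.log p) (irrational_log_two_div p hp hp3)
    (ε / 2) (by positivity)
  obtain ⟨c₁, hc₁⟩ := exists_nat_gt ((M : ℝ) * (1 + 1 / η))
  refine ⟨c₁, max K 0, le_max_right _ _, ?_⟩
  intro C n hn c₀ hc₀
  have hsub : (Finset.Icc c₀ C).filter (fun c => Bad M p (n / 2 ^ (C - c))) ⊆
      (range (C + 1)).filter (fun c : ℕ =>
        Int.fract (Real.log ((n : ℝ) / 2 ^ C) / Real.log p + c * (Real.log 2 / Real.log p)) <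
          dens p + η / Real.log p) := by
    intro c hc
    rw [Finset.mem_filter, Finset.mem_Icc] at hc
    obtain ⟨⟨hcl, hcC⟩, hb⟩ := hc
    rw [Finset.mem_filter, Finset.mem_range]
    exact ⟨by omega, fract_of_bad M p hp3 η hηpos hη1 c₁ hc₁ C n c hn (le_trans hc₀ hcl) hcC hb⟩
  have h1 := hK (Real.log ((n : ℝ) / 2 ^ C) / Real.log p) (dens p + η / Real.log p) hℓ0 hℓ1 (C + 1)
  have h2 : (((Finset.Icc c₀ C).filter (fun c => Bad M p (n / 2 ^ (C - c)))).card : ℝ) ≤
      (((range (C + 1)).filter (fun c : ℕ =>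
        Int.fract (Real.log ((n : ℝ) / 2 ^ C) / Real.log p + c * (Real.log 2 / Real.log p)) <
          dens p + η / Real.log p)).card : ℝ) := by
    exact_mod_cast Finset.card_le_card hsub
  refine h2.trans (h1.trans ?_)
  have h3 : η / Real.log p ≤ ε / 2 := by
    rw [div_le_iff₀ hlogp]
    nlinarith
  have h4 : dens p + η / Real.log p + ε / 2 ≤ dens p + ε := by
    linarith
  have h5 : K ≤ max K 0 := le_max_left _ _
  have h6 : (0 : ℝ) ≤ (C : ℝ) + 1 := by positivity
  push_cast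
  have h7 := mul_le_mul_of_nonneg_right h4 h6
  linarith

/-- a geometric sum over large scales. -/
theorem sum_half_pow (X : ℝ) (hX : 0 < X) (N : ℕ) :
    ∑ c ∈ (range N).filter (fun c : ℕ => X < 2 ^ c), (1 / 2 : ℝ) ^ c ≤ 2 / X := by
  classical
  obtain ⟨c', hc'⟩ := pow_unbounded_of_one_lt X (by norm_num : (1 : ℝ) < 2)
  have hex : ∃ c : ℕ, X < 2 ^ c := ⟨c', hc'⟩
  set c₀ := Nat.find hex with hc₀
  have hc₀X : X < 2 ^ c₀ := Nat.find_spec hex
  have hsub : (range N).filter (fun c : ℕ => X < 2 ^ c) ⊆ Finset.Ico c₀ (c₀ + N) := by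
    intro c hc
    rw [Finset.mem_filter, Finset.mem_range] at hc
    rw [Finset.mem_Ico]
    exact ⟨Nat.find_min' hex hc.2, by omega⟩
  have h1 := Finset.sum_le_sum_of_subset_of_nonneg (f := fun c : ℕ => (1 / 2 : ℝ) ^ c) hsub
    (fun i _ _ => by positivity)
  refine h1.trans ?_
  have h2 : ∀ L : ℕ, ∑ c ∈ Finset.Ico c₀ (c₀ + L), (1 / 2 : ℝ) ^ c ≤
      2 * (1 / 2 : ℝ) ^ c₀ - 2 * (1 / 2 : ℝ) ^ (c₀ + L) := by
    intro L
    induction L with
    | zero => simp
    | succ L ih =>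
      rw [← add_assoc, Finset.sum_Ico_succ_top (by omega)]
      have : (1 / 2 : ℝ) ^ (c₀ + L + 1) = (1 / 2 : ℝ) ^ (c₀ + L) * (1 / 2) := pow_succ _ _
      rw [this]
      linarith
  have h3 := h2 N
  have h4 : (0 : ℝ) ≤ (1 / 2 : ℝ) ^ (c₀ + N) := by positivity
  have h5 : (1 / 2 : ℝ) ^ c₀ ≤ 1 / X := by
    rw [one_div_pow]
    exact one_div_le_one_div_of_le hX hc₀X.le
  have h6 : 2 / X = 2 * (1 / X) := by ring
  linarith

open scoped Classical in
/-- large primes: number of bad pairs. -/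
theorem large_prime (M p : ℕ) (hp : p.Prime) (hpM : M ≤ p) (C : ℕ) :
    ((((Finset.Ico (255 * 2 ^ C) (256 * 2 ^ C)) ×ˢ (range (C + 1))).filter
      (fun x : ℕ × ℕ => Bad M p (x.1 / 2 ^ (C - x.2)))).card : ℝ) ≤
      2 ^ C * (1024 * ((C + 8) * Real.log 2) * (1 / (p * Real.log p))) := by
  have hp2 := hp.two_le
  have hp2' : (2 : ℝ) ≤ p := by exact_mod_cast hp2
  have hp0 : (0 : ℝ) < p := by linarith
  have hlogp : 0 < Real.log p := Real.log_pos (by linarith)
  set B := Nat.log p (256 * 2 ^ C) with hB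
  set A : ℕ → Finset (ℕ × ℕ) := fun b =>
    ((Finset.Ico (255 * 2 ^ C) (256 * 2 ^ C)) ×ˢ (range (C + 1))).filter
      (fun x : ℕ × ℕ => p ^ b ≤ x.1 / 2 ^ (C - x.2) ∧
        x.1 / 2 ^ (C - x.2) < p ^ b + p ^ (b - 1) + M) with hA
  have hsub : (((Finset.Ico (255 * 2 ^ C) (256 * 2 ^ C)) ×ˢ (range (C + 1))).filter
      (fun x : ℕ × ℕ => Bad M p (x.1 / 2 ^ (C - x.2)))) ⊆ (Finset.Icc 2 B).biUnion A := by
    intro x hx
    rw [Finset.mem_filter, Finset.mem_product, Finset.mem_Ico, Finset.mem_range] at hx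
    obtain ⟨⟨⟨hx1, hx2⟩, hx3⟩, b, hb2, hb3, hb4⟩ := hx
    rw [Finset.mem_biUnion]
    refine ⟨b, ?_, ?_⟩
    · rw [Finset.mem_Icc]
      refine ⟨hb2, ?_⟩
      rw [hB]
      apply Nat.le_log_of_pow_le (by omega)
      have := Nat.div_le_self x.1 (2 ^ (C - x.2))
      omega
    · rw [hA]
      simp only [Finset.mem_filter, Finset.mem_product, Finset.mem_Ico, Finset.mem_range]
      exact ⟨⟨⟨hx1, hx2⟩, hx3⟩, hb3, hb4⟩
  have hAb : ∀ b ∈ Finset.Icc 2 B, ((A b).card : ℝ) ≤ 2 ^ C * (1024 / p) := by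
    intro b hb
    rw [Finset.mem_Icc] at hb
    have hcount : ∀ c ∈ range (C + 1),
        (((Finset.Ico (255 * 2 ^ C) (256 * 2 ^ C)).filter
          (fun n : ℕ => p ^ b ≤ n / 2 ^ (C - c) ∧
            n / 2 ^ (C - c) < p ^ b + p ^ (b - 1) + M)).card : ℝ) ≤
          if ((p : ℝ) ^ b / 256 < 2 ^ c) then
            2 ^ C * (2 * (p : ℝ) ^ (b - 1)) * (1 / 2 : ℝ) ^ c else 0 := by
      intro c hc
      rw [Finset.mem_range] at hc
      split_ifs with hif
      · have hs : (Finset.Ico (255 * 2 ^ C) (256 * 2 ^ C)).filter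
            (fun n : ℕ => p ^ b ≤ n / 2 ^ (C - c) ∧
              n / 2 ^ (C - c) < p ^ b + p ^ (b - 1) + M) ⊆
            Finset.Ico (p ^ b * 2 ^ (C - c)) ((p ^ b + p ^ (b - 1) + M) * 2 ^ (C - c)) := by
          intro n hn
          rw [Finset.mem_filter] at hn
          rw [Finset.mem_Ico]
          refine ⟨?_, ?_⟩
          · exact (Nat.le_div_iff_mul_le (by positivity)).mp hn.2.1
          · exact (Nat.div_lt_iff_lt_mul (by positivity)).mp hn.2.2
        have h1 := Finset.card_le_card hs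
        rw [Nat.card_Ico, ← Nat.sub_mul] at h1
        have h2 : p ^ b + p ^ (b - 1) + M - p ^ b = p ^ (b - 1) + M := by omega
        rw [h2] at h1
        have h3 : M ≤ p ^ (b - 1) := by
          calc M ≤ p := hpM
            _ = p ^ 1 := (pow_one p).symm
            _ ≤ p ^ (b - 1) := Nat.pow_le_pow_right hp.pos (by omega)
        have h4 : (p ^ (b - 1) + M) * 2 ^ (C - c) ≤ (2 * p ^ (b - 1)) * 2 ^ (C - c) :=
          Nat.mul_le_mul_right _ (by omega)
        have h5 : ((2 * p ^ (b - 1)) * 2 ^ (C - c) : ℝ) =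
            2 ^ C * (2 * (p : ℝ) ^ (b - 1)) * (1 / 2 : ℝ) ^ c := by
          have : (2 : ℝ) ^ C = 2 ^ (C - c) * 2 ^ c := by
            rw [← pow_add]
            congr 1
            omega
          rw [this, one_div_pow]
          field_simp
        rw [← h5]
        exact_mod_cast h1.trans h4
      · have : (Finset.Ico (255 * 2 ^ C) (256 * 2 ^ C)).filter
            (fun n : ℕ => p ^ b ≤ n / 2 ^ (C - c) ∧
              n / 2 ^ (C - c) < p ^ b + p ^ (b - 1) + M) = ∅ := by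
          apply Finset.filter_eq_empty_iff.mpr
          intro n hn h
          rw [Finset.mem_Ico] at hn
          apply hif
          rw [div_lt_iff₀ (by norm_num)]
          have h1 : n / 2 ^ (C - c) < 256 * 2 ^ c := by
            rw [Nat.div_lt_iff_lt_mul (by positivity)]
            calc n < 256 * 2 ^ C := hn.2
              _ = 256 * 2 ^ c * 2 ^ (C - c) := by
                rw [mul_assoc, ← pow_add]
                congr 2
                omega
          have h2 : p ^ b < 256 * 2 ^ c := lt_of_le_of_lt h.1 h1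
          have h3 : (p : ℝ) ^ b < 256 * 2 ^ c := by exact_mod_cast h2
          linarith
        rw [this]
        simp
    have hcard : ((A b).card : ℝ) = ∑ c ∈ range (C + 1),
        (((Finset.Ico (255 * 2 ^ C) (256 * 2 ^ C)).filter
          (fun n : ℕ => p ^ b ≤ n / 2 ^ (C - c) ∧
            n / 2 ^ (C - c) < p ^ b + p ^ (b - 1) + M)).card : ℝ) := by
      rw [hA]
      simp only [Finset.card_filter]
      push_cast
      rw [Finset.sum_product_right]
    rw [hcard]
    refine (Finset.sum_le_sum hcount).trans ?_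
    rw [← Finset.sum_filter, ← Finset.mul_sum]
    have hpb : (0 : ℝ) < (p : ℝ) ^ b / 256 := by positivity
    have h1 := sum_half_pow ((p : ℝ) ^ b / 256) hpb (C + 1)
    have h2 : (0 : ℝ) ≤ 2 ^ C * (2 * (p : ℝ) ^ (b - 1)) := by positivity
    refine (mul_le_mul_of_nonneg_left h1 h2).trans (le_of_eq ?_)
    have : (p : ℝ) ^ b = (p : ℝ) ^ (b - 1) * p := by
      rw [← pow_succ]
      congr 1
      omega
    rw [this]
    field_simp
    ring
  have hBle : ((Finset.Icc 2 B).card : ℝ) ≤ (C + 8) * Real.log 2 / Real.log p := by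
    rw [Nat.card_Icc]
    have h1 : ((B + 1 - 2 : ℕ) : ℝ) ≤ (B : ℝ) := by
      have : B + 1 - 2 ≤ B := by omega
      exact_mod_cast this
    refine h1.trans ?_
    rw [le_div_iff₀ hlogp]
    have h2 : p ^ B ≤ 256 * 2 ^ C := Nat.pow_log_le_self p (by positivity)
    have h3 : (p : ℝ) ^ B ≤ 256 * 2 ^ C := by exact_mod_cast h2
    have h4 := Real.log_le_log (by positivity) h3
    have h5 : (256 : ℝ) * 2 ^ C = 2 ^ (C + 8) := by
      rw [pow_add]
      norm_num
      ring
    rw [h5, Real.log_pow, Real.log_pow] at h4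
    push_cast at h4
    exact h4
  have h1 := Finset.card_le_card hsub
  have h2 : (((Finset.Icc 2 B).biUnion A).card : ℝ) ≤ ∑ b ∈ Finset.Icc 2 B, ((A b).card : ℝ) := by
    exact_mod_cast Finset.card_biUnion_le
  have h3 : ∑ b ∈ Finset.Icc 2 B, ((A b).card : ℝ) ≤
      ((Finset.Icc 2 B).card : ℝ) * (2 ^ C * (1024 / p)) := by
    calc ∑ b ∈ Finset.Icc 2 B, ((A b).card : ℝ)
        ≤ ∑ _b ∈ Finset.Icc 2 B, (2 ^ C * (1024 / (p : ℝ))) := Finset.sum_le_sum hAb
      _ = _ := by rw [Finset.sum_const, nsmul_eq_mul]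
  have h4 : ((Finset.Icc 2 B).card : ℝ) * (2 ^ C * (1024 / (p : ℝ))) ≤
      ((C + 8) * Real.log 2 / Real.log p) * (2 ^ C * (1024 / (p : ℝ))) :=
    mul_le_mul_of_nonneg_right hBle (by positivity)
  have h5 : ((C + 8) * Real.log 2 / Real.log p) * (2 ^ C * (1024 / (p : ℝ))) =
      2 ^ C * (1024 * ((C + 8) * Real.log 2) * (1 / (p * Real.log p))) := by
    field_simp
  have h6 : ((((Finset.Ico (255 * 2 ^ C) (256 * 2 ^ C)) ×ˢ (range (C + 1))).filter
      (fun x : ℕ × ℕ => Bad M p (x.1 / 2 ^ (C - x.2)))).card : ℝ) ≤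
      (((Finset.Icc 2 B).biUnion A).card : ℝ) := by exact_mod_cast h1
  rw [← h5]
  exact h6.trans (h2.trans (h3.trans h4))

end Pool.Agent.H56.WC
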