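import Mathlib
import Pool.Agent.H56.WC.Count

set_option autoImplicit false

namespace Pool.Agent.H56.WC

open Finset

open scoped Classical in
/-- There is a scale `c ≥ c'` and a starting number `m` in `[255 * 2^c, 256 * 2^c)` which is not bad
for any odd prime. -/
theorem exists_scale (M c' : ℕ) : ∃ m c : ℕ, c' ≤ c ∧ 255 * 2 ^ c ≤ m ∧ m < 256 * 2 ^ c ∧
    ∀ p : ℕ, p.Prime → 3 ≤ p → ¬ Bad M p m := by
  obtain ⟨P₀, hP₀13, hP₀⟩ := tail_small (1 / 150000) (by norm_num)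
  obtain ⟨P, hPP₀, hPM⟩ : ∃ P : ℕ, P₀ ≤ P ∧ M ≤ P := ⟨max P₀ M, le_max_left _ _, le_max_right _ _⟩
  have hP : ∀ N : ℕ, ∑ p ∈ (Finset.Ioc P N).filter Nat.Prime, 1 / ((p : ℝ) * Real.log p) ≤
      1 / 150000 := by
    intro N
    refine le_trans ?_ (hP₀ N)
    apply Finset.sum_le_sum_of_subset_of_nonneg
    · apply Finset.filter_subset_filter
      exact Finset.Ioc_subset_Ioc_left hPP₀
    · intro p _ _
      have := Real.log_natCast_nonneg p
      positivity
  set ε : ℝ := 1 / (200 * (P + 1)) with hε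
  have hεpos : 0 < ε := by positivity
  have hsm : ∀ p : ℕ, ∃ (c₁ : ℕ) (K : ℝ), 0 ≤ K ∧ (p.Prime → 3 ≤ p → ∀ (C n : ℕ),
      255 * 2 ^ C ≤ n → ∀ c₀ : ℕ, c₁ ≤ c₀ →
      (((Finset.Icc c₀ C).filter (fun c => Bad M p (n / 2 ^ (C - c)))).card : ℝ) ≤
        (dens p + ε) * (C + 1) + K) := by
    intro p
    by_cases h : p.Prime ∧ 3 ≤ p
    · obtain ⟨c₁, K, hK, h2⟩ := small_prime M p h.1 h.2 ε hεpos
      exact ⟨c₁, K, hK, fun _ _ => h2⟩
    · exact ⟨0, 0, le_refl _, fun h1 h2 => absurd ⟨h1, h2⟩ h⟩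
  choose c₁ K hK0 hK using hsm
  set Pr1 : Finset ℕ := (Finset.Icc 3 P).filter Nat.Prime with hPr1
  set c₀ : ℕ := c' + ∑ p ∈ Pr1, c₁ p with hc₀
  set Kt : ℝ := ∑ p ∈ Pr1, K p with hKt
  have hKt0 : 0 ≤ Kt := Finset.sum_nonneg (fun p _ => hK0 p)
  obtain ⟨C, hC⟩ := exists_nat_gt (100 * ((c₀ : ℝ) + Kt + 1))
  have hc₀C : c₀ ≤ C := by
    have h1 : (c₀ : ℝ) ≤ C := by
      have : (0 : ℝ) ≤ c₀ := Nat.cast_nonneg _
      linarith
    exact_mod_cast h1
  set Ω : Finset (ℕ × ℕ) :=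
    (Finset.Ico (255 * 2 ^ C) (256 * 2 ^ C)) ×ˢ (Finset.Icc c₀ C) with hΩ
  set Pr2 : Finset ℕ := (Finset.Ioc P (256 * 2 ^ C)).filter Nat.Prime with hPr2
  set B1 : ℕ → Finset (ℕ × ℕ) := fun p => Ω.filter (fun x => Bad M p (x.1 / 2 ^ (C - x.2)))
    with hB1
  set B2 : ℕ → Finset (ℕ × ℕ) := fun p =>
    (((Finset.Ico (255 * 2 ^ C) (256 * 2 ^ C)) ×ˢ (range (C + 1))).filter
      (fun x : ℕ × ℕ => Bad M p (x.1 / 2 ^ (C - x.2)))) with hB2
  by_contra hcon
  push Not at hcon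
  have hcover : Ω ⊆ (Pr1.biUnion B1) ∪ (Pr2.biUnion B2) := by
    intro x hx
    have hx' := hx
    rw [hΩ, Finset.mem_product, Finset.mem_Ico, Finset.mem_Icc] at hx
    obtain ⟨⟨hx1, hx2⟩, hx3, hx4⟩ := hx
    have hpow : (2 : ℕ) ^ C = 2 ^ x.2 * 2 ^ (C - x.2) := by
      rw [← pow_add]
      congr 1
      omega
    have hm1 : 255 * 2 ^ x.2 ≤ x.1 / 2 ^ (C - x.2) := by
      rw [Nat.le_div_iff_mul_le (by positivity), mul_assoc, ← hpow]
      exact hx1
    have hm2 : x.1 / 2 ^ (C - x.2) < 256 * 2 ^ x.2 := by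
      rw [Nat.div_lt_iff_lt_mul (by positivity), mul_assoc, ← hpow]
      exact hx2
    obtain ⟨p, hp, hp3, hbad⟩ := hcon (x.1 / 2 ^ (C - x.2)) x.2 (by omega) hm1 hm2
    rw [Finset.mem_union]
    by_cases hpP : p ≤ P
    · left
      rw [Finset.mem_biUnion]
      refine ⟨p, ?_, ?_⟩
      · rw [hPr1, Finset.mem_filter, Finset.mem_Icc]
        exact ⟨⟨hp3, hpP⟩, hp⟩
      · rw [hB1, Finset.mem_filter]
        exact ⟨hx', hbad⟩
    · right
      rw [Finset.mem_biUnion]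
      refine ⟨p, ?_, ?_⟩
      · rw [hPr2, Finset.mem_filter, Finset.mem_Ioc]
        refine ⟨⟨by omega, ?_⟩, hp⟩
        obtain ⟨b, hb2, hb3, _⟩ := hbad
        have h1 : p ^ 1 ≤ p ^ b := Nat.pow_le_pow_right hp.pos (by omega)
        have h2 := Nat.div_le_self x.1 (2 ^ (C - x.2))
        rw [pow_one] at h1
        omega
      · rw [hB2, Finset.mem_filter, Finset.mem_product, Finset.mem_Ico, Finset.mem_range]
        exact ⟨⟨⟨hx1, hx2⟩, by omega⟩, hbad⟩
  have hΩcard : (Ω.card : ℝ) = 2 ^ C * ((C : ℝ) + 1 - c₀) := by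
    rw [hΩ, Finset.card_product, Nat.card_Ico, Nat.card_Icc]
    have h1 : 256 * 2 ^ C - 255 * 2 ^ C = 2 ^ C := by omega
    rw [h1]
    push_cast [Nat.cast_sub (show c₀ ≤ C + 1 by omega)]
    ring
  have hB1card : ∀ p ∈ Pr1, ((B1 p).card : ℝ) ≤ 2 ^ C * ((dens p + ε) * (C + 1) + K p) := by
    intro p hp
    rw [hPr1, Finset.mem_filter, Finset.mem_Icc] at hp
    have h1 : ((B1 p).card : ℝ) = ∑ n ∈ Finset.Ico (255 * 2 ^ C) (256 * 2 ^ C),
        (((Finset.Icc c₀ C).filter (fun c => Bad M p (n / 2 ^ (C - c)))).card : ℝ) := by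
      rw [hB1, hΩ]
      simp only [Finset.card_filter]
      push_cast
      rw [Finset.sum_product]
    rw [h1]
    have h2 : ∀ n ∈ Finset.Ico (255 * 2 ^ C) (256 * 2 ^ C),
        (((Finset.Icc c₀ C).filter (fun c => Bad M p (n / 2 ^ (C - c)))).card : ℝ) ≤
          (dens p + ε) * (C + 1) + K p := by
      intro n hn
      rw [Finset.mem_Ico] at hn
      apply hK p hp.2 hp.1.1 C n hn.1 c₀
      rw [hc₀]
      have : c₁ p ≤ ∑ q ∈ Pr1, c₁ q := by
        apply Finset.single_le_sum (fun _ _ => Nat.zero_le _)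
        rw [hPr1, Finset.mem_filter, Finset.mem_Icc]
        exact hp
      omega
    refine (Finset.sum_le_sum h2).trans (le_of_eq ?_)
    rw [Finset.sum_const, Nat.card_Ico, nsmul_eq_mul]
    have h3 : 256 * 2 ^ C - 255 * 2 ^ C = 2 ^ C := by omega
    rw [h3]
    push_cast
    ring
  have hB2card : ∀ p ∈ Pr2, ((B2 p).card : ℝ) ≤
      2 ^ C * (1024 * ((C + 8) * Real.log 2) * (1 / (p * Real.log p))) := by
    intro p hp
    rw [hPr2, Finset.mem_filter, Finset.mem_Ioc] at hp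
    exact large_prime M p hp.2 (by omega) C
  have hS1 : ((Pr1.biUnion B1).card : ℝ) ≤
      2 ^ C * ((97 / 100 + 1 / 200) * (C + 1) + Kt) := by
    have h1 : ((Pr1.biUnion B1).card : ℝ) ≤ ∑ p ∈ Pr1, ((B1 p).card : ℝ) := by
      exact_mod_cast Finset.card_biUnion_le
    refine h1.trans ((Finset.sum_le_sum hB1card).trans ?_)
    rw [← Finset.mul_sum, Finset.sum_add_distrib, ← Finset.sum_mul, Finset.sum_add_distrib,
      Finset.sum_const, nsmul_eq_mul]
    apply mul_le_mul_of_nonneg_left _ (by positivity)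
    have h2 := sum_dens_le P
    have h3 : (Pr1.card : ℝ) * ε ≤ 1 / 200 := by
      have h4 : (Pr1.card : ℝ) ≤ P + 1 := by
        have h5 : Pr1.card ≤ (Finset.Icc 3 P).card := Finset.card_filter_le _ _
        rw [Nat.card_Icc] at h5
        have h6 : Pr1.card ≤ P + 1 := by omega
        exact_mod_cast h6
      have h5 : ((P : ℝ) + 1) * ε = 1 / 200 := by
        rw [hε]
        field_simp
      calc (Pr1.card : ℝ) * ε ≤ (P + 1) * ε := mul_le_mul_of_nonneg_right h4 hεpos.le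
        _ = 1 / 200 := h5
    have h6 : (0 : ℝ) ≤ (C : ℝ) + 1 := by positivity
    have h7 : (∑ i ∈ Pr1, dens i + (Pr1.card : ℝ) * ε) * ((C : ℝ) + 1) ≤
        (97 / 100 + 1 / 200) * (C + 1) := by
      apply mul_le_mul_of_nonneg_right _ h6
      linarith
    linarith
  have hS2 : ((Pr2.biUnion B2).card : ℝ) ≤ 2 ^ C * (1 / 200 * (C + 8)) := by
    have h1 : ((Pr2.biUnion B2).card : ℝ) ≤ ∑ p ∈ Pr2, ((B2 p).card : ℝ) := by
      exact_mod_cast Finset.card_biUnion_le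
    refine h1.trans ((Finset.sum_le_sum hB2card).trans ?_)
    rw [← Finset.mul_sum, ← Finset.mul_sum]
    apply mul_le_mul_of_nonneg_left _ (by positivity)
    have h2 := hP (256 * 2 ^ C)
    have hl2 : 0 < Real.log 2 := Real.log_pos (by norm_num)
    have hl2' : Real.log 2 < 0.6931471808 := Real.log_two_lt_d9
    have h3 : (0 : ℝ) ≤ 1024 * ((C + 8) * Real.log 2) := by positivity
    refine (mul_le_mul_of_nonneg_left h2 h3).trans ?_
    have h4 : (0 : ℝ) ≤ (C : ℝ) + 8 := by positivity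
    have h5 : ((C : ℝ) + 8) * Real.log 2 ≤ (C + 8) * 0.6931471808 :=
      mul_le_mul_of_nonneg_left hl2'.le h4
    nlinarith
  have hfin : (Ω.card : ℝ) ≤ ((Pr1.biUnion B1).card : ℝ) + ((Pr2.biUnion B2).card : ℝ) := by
    exact_mod_cast (Finset.card_le_card hcover).trans (Finset.card_union_le _ _)
  rw [hΩcard] at hfin
  have h2C : (0 : ℝ) < 2 ^ C := by positivity
  have hfin2 : (2 : ℝ) ^ C * ((C : ℝ) + 1 - c₀) ≤
      2 ^ C * (((97 / 100 + 1 / 200) * (C + 1) + Kt) + 1 / 200 * (C + 8)) := by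
    rw [mul_add]
    linarith
  have hfin3 := le_of_mul_le_mul_left hfin2 h2C
  have hc₀0 : (0 : ℝ) ≤ c₀ := Nat.cast_nonneg _
  linarith

/-- **Infinitely many good lengths**: every residue class modulo `M` contains arbitrarily large `k`
whose binary expansion starts with seven ones and which avoid all the intervals
`[p^b, p^b + p^(b-1))`, `p` prime, `b ≥ 2`. -/
theorem exists_good (M a K0 : ℕ) (hM : 0 < M) (ha : a < M) :
    ∃ k c : ℕ, K0 ≤ k ∧ k % M = a ∧ 127 * 2 ^ c ≤ k ∧ k < 128 * 2 ^ c ∧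
      ∀ p b : ℕ, p.Prime → 2 ≤ b → ¬ (p ^ b ≤ k ∧ k < p ^ b + p ^ (b - 1)) := by
  obtain ⟨m, c, hc, hm1, hm2, hbad⟩ := exists_scale M (K0 + M)
  have hcpow : c < 2 ^ c := Nat.lt_two_pow_self
  have ham : a ≤ m := by omega
  refine ⟨m - (m - a) % M, c + 1, ?_, ?_, ?_, ?_, ?_⟩
  · have := Nat.mod_lt (m - a) hM
    omega
  · have h1 : m - (m - a) % M = a + M * ((m - a) / M) := by
      have := Nat.div_add_mod (m - a) M
      omega
    rw [h1, Nat.add_mul_mod_self_left, Nat.mod_eq_of_lt ha]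
  · have := Nat.mod_lt (m - a) hM
    rw [pow_succ]
    omega
  · rw [pow_succ]
    omega
  · intro p b hp hb
    have hlt := Nat.mod_lt (m - a) hM
    rintro ⟨h1, h2⟩
    rcases Nat.lt_or_ge p 3 with hp3 | hp3
    · have hp2 : p = 2 := by
        have := hp.two_le
        omega
      subst hp2
      have h3 : 2 ^ b < 2 ^ (c + 8) := by
        have : (2 : ℕ) ^ (c + 8) = 256 * 2 ^ c := by
          rw [pow_add]
          ring
        omega
      have h4 : b < c + 8 := (Nat.pow_lt_pow_iff_right (by norm_num)).mp h3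
      have h5 : 2 ^ b ≤ 2 ^ (c + 7) := Nat.pow_le_pow_right (by norm_num) (by omega)
      have h6 : 2 ^ (b - 1) ≤ 2 ^ (c + 6) := Nat.pow_le_pow_right (by norm_num) (by omega)
      have h7 : (2 : ℕ) ^ (c + 7) = 128 * 2 ^ c := by
        rw [pow_add]
        ring
      have h8 : (2 : ℕ) ^ (c + 6) = 64 * 2 ^ c := by
        rw [pow_add]
        ring
      omega
    · apply hbad p hp hp3
      refine ⟨b, hb, by omega, by omega⟩

end Pool.Agent.H56.WC
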